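import Mathlib

/-!
Restricted wreath products `R ≀ A` of additive abelian groups, their finite quotients
`R' ≀ (A / L)`, and conjugacy depth.
-/

namespace Q102.CD

open Finsupp

/-- The restricted wreath product `R ≀ A`: pairs `(f, b)` with `f` a finitely supported
function `A → R` (a Laurent polynomial when `A = ℤ^k`) and `b ∈ A`. -/
@[ext]
structure Wr (R A : Type*) [AddCommGroup R] [AddCommGroup A] where
  f : A →₀ R
  b : A

section basic

variable {R A R' A' : Type*} [AddCommGroup R] [AddCommGroup A] [AddCommGroup R']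
  [AddCommGroup A']

/-- Translation by `b`: sends the monomial `c X^a` to `c X^(a+b)`. -/
noncomputable def sh (b : A) : (A →₀ R) →+ (A →₀ R) :=
  Finsupp.mapDomain.addMonoidHom (fun a => a + b)

theorem sh_single (b a : A) (c : R) : sh b (single a c) = single (a + b) c := by
  simp [sh, Finsupp.mapDomain.addMonoidHom]

theorem sh_zero (f : A →₀ R) : sh (0 : A) f = f := by
  induction f using Finsupp.induction_linear with
  | zero => simp
  | add f g hf hg => rw [map_add, hf, hg]
  | single a c => rw [sh_single, add_zero]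

theorem sh_sh (b c : A) (f : A →₀ R) : sh b (sh c f) = sh (b + c) f := by
  induction f using Finsupp.induction_linear with
  | zero => simp
  | add f g hf hg => rw [map_add, map_add, map_add, hf, hg]
  | single a r => rw [sh_single, sh_single, sh_single]; congr 1; abel

theorem sh_apply (b : A) (f : A →₀ R) (u : A) : sh b f (u + b) = f u := by
  simp only [sh, Finsupp.mapDomain.addMonoidHom, AddMonoidHom.coe_mk, ZeroHom.coe_mk]
  exact Finsupp.mapDomain_apply (add_left_injective b) f u

theorem sh_support (b : A) (f : A →₀ R) {u : A} (hu : u ∈ (sh b f).support) :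
    u - b ∈ f.support := by
  rw [Finsupp.mem_support_iff] at hu ⊢
  have := sh_apply b f (u - b)
  rw [sub_add_cancel] at this
  rwa [← this]

noncomputable instance : Mul (Wr R A) := ⟨fun x y => ⟨x.f + sh x.b y.f, x.b + y.b⟩⟩
noncomputable instance : One (Wr R A) := ⟨⟨0, 0⟩⟩
noncomputable instance : Inv (Wr R A) := ⟨fun x => ⟨-(sh (-x.b) x.f), -x.b⟩⟩

@[simp] theorem mul_f (x y : Wr R A) : (x * y).f = x.f + sh x.b y.f := rfl
@[simp] theorem mul_b (x y : Wr R A) : (x * y).b = x.b + y.b := rfl
@[simp] theorem one_f : (1 : Wr R A).f = 0 := rfl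
@[simp] theorem one_b : (1 : Wr R A).b = 0 := rfl
@[simp] theorem inv_f (x : Wr R A) : (x⁻¹).f = -(sh (-x.b) x.f) := rfl
@[simp] theorem inv_b (x : Wr R A) : (x⁻¹).b = -x.b := rfl

noncomputable instance : Group (Wr R A) := Group.ofLeftAxioms
  (by
    intro x y z
    ext1
    · simp only [mul_f, mul_b, map_add, sh_sh]; abel
    · simp only [mul_b]; abel)
  (by
    intro x
    ext1
    · simp only [mul_f, one_f, one_b, sh_zero, zero_add]
    · simp)
  (by
    intro x
    ext1
    · simp only [mul_f, inv_f, inv_b, one_f]; abel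
    · simp)

/-- The homomorphism `R ≀ A → R' ≀ A'` induced by homomorphisms `R → R'` and `A → A'`. -/
noncomputable def wmap (ρ : R →+ R') (π : A →+ A') : Wr R A →* Wr R' A' where
  toFun x := ⟨mapDomain π (mapRange ρ ρ.map_zero x.f), π x.b⟩
  map_one' := by
    ext1
    · simp
    · simp
  map_mul' := by
    have key : ∀ (b : A) (g : A →₀ R), mapDomain π (mapRange ρ ρ.map_zero (sh b g)) =
        sh (π b) (mapDomain π (mapRange ρ ρ.map_zero g)) := by
      intro b g
      induction g using Finsupp.induction_linear with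
      | zero => simp
      | add f g hf hg =>
        rw [map_add, Finsupp.mapRange_add (fun x y => ρ.map_add x y), Finsupp.mapDomain_add, hf, hg,
          Finsupp.mapRange_add (fun x y => ρ.map_add x y), Finsupp.mapDomain_add, map_add]
      | single a c =>
        rw [sh_single, Finsupp.mapRange_single, Finsupp.mapDomain_single, Finsupp.mapRange_single,
          Finsupp.mapDomain_single, sh_single, map_add]
    intro x y
    ext1
    · simp only [mul_f]
      rw [Finsupp.mapRange_add (fun x y => ρ.map_add x y), Finsupp.mapDomain_add, key]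
    · simp

@[simp] theorem wmap_f (ρ : R →+ R') (π : A →+ A') (x : Wr R A) :
    (wmap ρ π x).f = mapDomain π (mapRange ρ ρ.map_zero x.f) := rfl
@[simp] theorem wmap_b (ρ : R →+ R') (π : A →+ A') (x : Wr R A) :
    (wmap ρ π x).b = π x.b := rfl

theorem image_sh (ρ : R →+ R') (π : A →+ A') (b : A) (g : A →₀ R) :
    mapDomain π (mapRange ρ ρ.map_zero (sh b g)) =
      sh (π b) (mapDomain π (mapRange ρ ρ.map_zero g)) := by
  have h := congrArg Wr.f ((wmap ρ π).map_mul ⟨0, b⟩ ⟨g, 0⟩)
  simp only [mul_f, wmap_f, wmap_b, zero_add, Finsupp.mapRange_zero,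
    Finsupp.mapDomain_zero] at h
  exact h

/-- Conjugate elements have the same `A`-component; if that component is `0`, the
`f`-components are translates of each other. -/
theorem isConj_b {x y : Wr R A} (h : IsConj x y) : x.b = y.b := by
  obtain ⟨c, hc⟩ := isConj_iff.1 h
  rw [← hc]
  simp

theorem isConj_f {x y : Wr R A} (h : IsConj x y) (hx : x.b = 0) :
    ∃ a : A, y.f = sh a x.f := by
  obtain ⟨c, hc⟩ := isConj_iff.1 h
  refine ⟨c.b, ?_⟩
  rw [← hc]
  simp only [mul_f, mul_b, inv_f, hx, add_zero, map_neg, sh_sh, add_neg_cancel, sh_zero]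
  abel

theorem isConj_of {x y : Wr R A} (a : A) (h : A →₀ R) (hb : x.b = y.b)
    (hf : y.f - sh a x.f = h - sh x.b h) : IsConj x y := by
  rw [isConj_iff]
  refine ⟨⟨h, a⟩, ?_⟩
  ext1
  · simp only [mul_f, mul_b, inv_f, map_neg, sh_sh]
    have e : a + x.b + -a = x.b := by abel
    rw [e]
    rw [sub_eq_iff_eq_add] at hf
    rw [hf]; abel
  · simp [hb]

end basic

section card

variable {R A : Type*} [AddCommGroup R] [AddCommGroup A]

def equivProd : Wr R A ≃ (A →₀ R) × A where
  toFun x := (x.f, x.b)
  invFun p := ⟨p.1, p.2⟩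
  left_inv _ := rfl
  right_inv _ := rfl

theorem finite_wr [Finite R] [Finite A] : Finite (Wr R A) := by
  have : Finite (A →₀ R) := Finite.of_injective (fun f : A →₀ R => (f : A → R))
    DFunLike.coe_injective
  exact Finite.of_equiv _ equivProd.symm

theorem card_wr [Finite R] [Finite A] :
    Nat.card (Wr R A) = Nat.card R ^ Nat.card A * Nat.card A := by
  rw [Nat.card_congr equivProd, Nat.card_prod, Nat.card_congr Finsupp.equivFunOnFinite,
    Nat.card_fun]

end card

section depth

variable {G : Type*} [Group G]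

/-- The indices of the finite-index normal subgroups `N` of `G` such that the images of
`x` and `y` in `G/N` are not conjugate. -/
def sepIndices (x y : G) : Set ℕ :=
  {m | ∃ N : Subgroup G, ∃ _ : N.Normal, N.index = m ∧ m ≠ 0 ∧
    ¬ IsConj (QuotientGroup.mk' N x) (QuotientGroup.mk' N y)}

/-- The conjugacy depth `D(x,y)`: the least element of `sepIndices x y`. -/
noncomputable def depth (x y : G) : ℕ := sInf (sepIndices x y)

/-- The ball of radius `n`: products of at most `n` elements of `S ∪ S⁻¹`. -/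
def ball (S : Set G) (n : ℕ) : Set G :=
  {g | ∃ l : List G, l.length ≤ n ∧ (∀ s ∈ l, s ∈ S ∨ s⁻¹ ∈ S) ∧ l.prod = g}

/-- The values `D(x,y)` for non-conjugate `x, y` of word length at most `n`. -/
def depths (S : Set G) (n : ℕ) : Set ℕ :=
  {m | ∃ x ∈ ball S n, ∃ y ∈ ball S n, ¬ IsConj x y ∧ m = depth x y}

/-- The conjugacy depth function `Conj_G(n)` with respect to `S`. -/
noncomputable def ConjG (S : Set G) (n : ℕ) : ℕ := sSup (depths S n)

/-- Every pair of non-conjugate elements of the ball of radius `n` is separated by a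
normal subgroup of index at most `B`. -/
def SepBy (S : Set G) (n B : ℕ) : Prop :=
  ∀ x ∈ ball S n, ∀ y ∈ ball S n, ¬ IsConj x y → ∃ m ∈ sepIndices x y, m ≤ B

theorem SepBy.conj_le {S : Set G} {n B : ℕ} (h : SepBy S n B) :
    BddAbove (depths S n) ∧ ConjG S n ≤ B := by
  have hb : ∀ m ∈ depths S n, m ≤ B := by
    rintro m ⟨x, hx, y, hy, hxy, rfl⟩
    obtain ⟨m, hm, hB⟩ := h x hx y hy hxy
    exact (Nat.sInf_le hm).trans hB
  refine ⟨⟨B, hb⟩, ?_⟩
  unfold ConjG
  by_cases hne : (depths S n).Nonempty
  · exact csSup_le hne hb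
  · rw [Set.not_nonempty_iff_eq_empty.1 hne]; simp

theorem SepBy.mono {S : Set G} {n B B' : ℕ} (h : SepBy S n B) (hB : B ≤ B') : SepBy S n B' := by
  intro x hx y hy hxy
  obtain ⟨m, hm, hmB⟩ := h x hx y hy hxy
  exact ⟨m, hm, hmB.trans hB⟩

theorem ball_zero {S : Set G} {x : G} (hx : x ∈ ball S 0) : x = 1 := by
  obtain ⟨l, hl, -, rfl⟩ := hx
  have : l = [] := List.length_eq_zero_iff.1 (Nat.le_zero.1 hl)
  rw [this]; rfl

theorem sepBy_zero (S : Set G) (B : ℕ) : SepBy S 0 B := by
  intro x hx y hy hxy
  exact absurd (by rw [ball_zero hx, ball_zero hy]) hxy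

theorem exists_mem_ball {S : Set G} (hS : Subgroup.closure S = ⊤) (x : G) :
    ∃ n, x ∈ ball S n := by
  have h1 : x ∈ (Subgroup.closure S).toSubmonoid := by rw [hS]; trivial
  rw [Subgroup.closure_toSubmonoid] at h1
  obtain ⟨l, hl, hx⟩ := Submonoid.exists_list_of_mem_closure h1
  exact ⟨l.length, l, le_rfl, fun s hs => by simpa using hl s hs, hx⟩

theorem ball_mono {S : Set G} {n m : ℕ} (h : n ≤ m) : ball S n ⊆ ball S m := by
  rintro x ⟨l, hl, h1, h2⟩
  exact ⟨l, hl.trans h, h1, h2⟩

/-- If all balls are separated then `G` is conjugacy separable. -/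
theorem sep_of {S : Set G} (hS : Subgroup.closure S = ⊤) (B : ℕ → ℕ)
    (h : ∀ n, SepBy S n (B n)) (x y : G) (hxy : ¬ IsConj x y) : (sepIndices x y).Nonempty := by
  obtain ⟨n, hn⟩ := exists_mem_ball hS x
  obtain ⟨m, hm⟩ := exists_mem_ball hS y
  obtain ⟨i, hi, -⟩ := h (max n m) x (ball_mono (le_max_left _ _) hn) y
    (ball_mono (le_max_right _ _) hm) hxy
  exact ⟨i, hi⟩

/-- A homomorphism to a finite group with non-conjugate images gives a separating
normal subgroup. -/
theorem mem_sepIndices {H : Type*} [Group H] [Finite H] (φ : G →* H) {x y : G}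
    (h : ¬ IsConj (φ x) (φ y)) : ∃ m ∈ sepIndices x y, m ≤ Nat.card H := by
  refine ⟨φ.ker.index, ⟨φ.ker, inferInstance, rfl, ?_, ?_⟩, ?_⟩
  · rw [Subgroup.index_ker]
    exact Nat.card_pos.ne'
  · intro hc
    apply h
    obtain ⟨c, hc⟩ := isConj_iff.1 hc
    rw [isConj_iff]
    refine ⟨QuotientGroup.kerLift φ c, ?_⟩
    have := congrArg (QuotientGroup.kerLift φ) hc
    rw [map_mul, map_mul, map_inv] at this
    exact this
  · rw [Subgroup.index_ker]
    exact Nat.card_le_card_of_injective (fun z : φ.range => (z : H)) Subtype.val_injective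

end depth

end Q102.CD
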