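import Pool.Agent.Q102.Wr.Sep

/-!
Word length estimates and the upper bounds for the conjugacy depth functions.
-/

namespace Q102.CD

open Finsupp

section l1

variable {A A' : Type*}

/-- The `ℓ¹`-norm of an integral function. -/
noncomputable def l1 (f : A →₀ ℤ) : ℕ := f.sum (fun _ c => c.natAbs)

theorem l1_zero : l1 (0 : A →₀ ℤ) = 0 := by simp [l1]

theorem l1_single (a : A) (c : ℤ) : l1 (single a c) = c.natAbs := by
  simp [l1]

theorem l1_eq_sum {f : A →₀ ℤ} {s : Finset A} (h : f.support ⊆ s) :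
    l1 f = ∑ a ∈ s, (f a).natAbs :=
  Finsupp.sum_of_support_subset f h _ (fun _ _ => rfl)

theorem l1_add (f g : A →₀ ℤ) : l1 (f + g) ≤ l1 f + l1 g := by
  classical
  rw [l1_eq_sum (f := f + g) (s := f.support ∪ g.support) Finsupp.support_add,
    l1_eq_sum (f := f) (s := f.support ∪ g.support) Finset.subset_union_left,
    l1_eq_sum (f := g) (s := f.support ∪ g.support) Finset.subset_union_right,
    ← Finset.sum_add_distrib]
  exact Finset.sum_le_sum (fun a _ => Int.natAbs_add_le _ _)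

theorem l1_neg (f : A →₀ ℤ) : l1 (-f) = l1 f := by
  rw [l1_eq_sum (f := -f) (s := f.support) (by rw [Finsupp.support_neg]),
    l1_eq_sum (f := f) (s := f.support) subset_rfl]
  exact Finset.sum_congr rfl (fun a _ => by simp)

theorem l1_sub (f g : A →₀ ℤ) : l1 (f - g) ≤ l1 f + l1 g := by
  rw [sub_eq_add_neg]
  exact (l1_add f (-g)).trans (by rw [l1_neg])

theorem l1_mapDomain (π : A → A') (f : A →₀ ℤ) : l1 (mapDomain π f) ≤ l1 f := by
  induction f using Finsupp.induction with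
  | zero => simp [l1_zero]
  | single_add a b f ha hb ih =>
    rw [Finsupp.mapDomain_add, Finsupp.mapDomain_single]
    refine (l1_add _ _).trans ?_
    have e : l1 (single a b + f) = b.natAbs + l1 f := by
      unfold l1
      rw [Finsupp.sum_add_index_of_disjoint, Finsupp.sum_single_index (by simp)]
      rw [Finset.disjoint_left]
      intro x hx hxf
      have : x = a := by
        by_contra hne
        rw [Finsupp.mem_support_iff, Finsupp.single_eq_of_ne hne] at hx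
        exact hx rfl
      exact ha (this ▸ hxf)
    rw [e, l1_single]
    omega

theorem natAbs_le_l1 (f : A →₀ ℤ) (a : A) : (f a).natAbs ≤ l1 f := by
  classical
  by_cases h : a ∈ f.support
  · exact Finset.single_le_sum (f := fun a => (f a).natAbs) (fun _ _ => Nat.zero_le _) h
  · rw [Finsupp.notMem_support_iff.1 h]; simp

theorem l1_sh [AddCommGroup A] (b : A) (f : A →₀ ℤ) : l1 (sh b f) ≤ l1 f := l1_mapDomain _ f

end l1

section balls

variable {k : ℕ}

/-- A uniform bound along words: if `P m x` is additive in `m` under products, every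
element of the ball of radius `n` has `P (K n)`. -/
theorem ball_bound {G : Type*} [Group G] (P : ℕ → G → Prop)
    (hmono : ∀ m m' x, m ≤ m' → P m x → P m' x) (hone : P 0 1)
    (hmul : ∀ m m' x y, P m x → P m' y → P (m + m') (x * y))
    (hex : ∀ x, ∃ m, P m x) (S : Set G) (hS : S.Finite) :
    ∃ K : ℕ, 0 < K ∧ ∀ n, ∀ x ∈ ball S n, P (K * n) x := by
  classical
  have hK : ∃ K : ℕ, ∀ s ∈ S, P K s ∧ P K s⁻¹ := by
    choose c hc using hex
    have hK : ∀ s ∈ S, c s + c s⁻¹ ≤ ∑ s ∈ hS.toFinset, (c s + c s⁻¹) := fun s hs =>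
      Finset.single_le_sum (f := fun s => c s + c s⁻¹) (fun _ _ => Nat.zero_le _)
        (hS.mem_toFinset.2 hs)
    refine ⟨∑ s ∈ hS.toFinset, (c s + c s⁻¹),
      fun s hs => ⟨hmono _ _ _ ?_ (hc s), hmono _ _ _ ?_ (hc s⁻¹)⟩⟩
    · exact (Nat.le_add_right _ _).trans (hK s hs)
    · exact (Nat.le_add_left _ _).trans (hK s hs)
  obtain ⟨K, hK⟩ := hK
  refine ⟨K + 1, Nat.succ_pos _, ?_⟩
  have key : ∀ l : List G, (∀ s ∈ l, s ∈ S ∨ s⁻¹ ∈ S) → P ((K + 1) * l.length) l.prod := by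
    intro l
    induction l with
    | nil => intro _; simpa using hone
    | cons a l ih =>
      intro h
      rw [List.prod_cons, List.length_cons]
      have h1 : P (K + 1) a := by
        rcases h a (by simp) with h1 | h1
        · exact hmono _ _ _ (Nat.le_succ K) (hK a h1).1
        · have := (hK _ h1).2
          rw [inv_inv] at this
          exact hmono _ _ _ (Nat.le_succ K) this
      have h2 := ih (fun s hs => h s (by simp [hs]))
      have h3 := hmul _ _ _ _ h1 h2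
      have e : (K + 1) * (l.length + 1) = (K + 1) + (K + 1) * l.length := by ring
      rw [e]; exact h3
  rintro n x ⟨l, hl, hS, rfl⟩
  exact hmono _ _ _ (Nat.mul_le_mul_left _ hl) (key l hS)

end balls

section fin

variable {k : ℕ}

theorem sepBy_fin (p : ℕ) [Fact p.Prime] (hk : 1 ≤ k)
    (S : Set (Wr (ZMod p) (Fin k → ℤ))) (hS : S.Finite) :
    ∃ C : ℕ, 0 < C ∧ ∀ n, SepBy S n (C * 2 ^ ((C * n) ^ k)) := by
  obtain ⟨K, hK0, hK⟩ := ball_bound (fun m (x : Wr (ZMod p) (Fin k → ℤ)) => sz m x)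
    (fun m m' x h hx => hx.mono h) (sz_one 0) (fun m m' x y h h' => h.mul h') exists_sz S hS
  refine ⟨(p + 1) * (13 * K), by positivity, fun n => ?_⟩
  rcases Nat.eq_zero_or_pos n with rfl | hn
  · exact sepBy_zero S _
  intro x hx y hy hxy
  obtain ⟨i, hi, hile⟩ := separation (R' := ZMod p) (AddMonoidHom.id (ZMod p)) (K * n) x y
    (hK n x hx) (hK n y hy) (fun a A' _ π z h => h) hxy
  refine ⟨i, hi, hile.trans ?_⟩
  have hcard : Nat.card (ZMod p) = p := Nat.card_zmod p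
  rw [hcard]
  set N := 12 * (K * n) + 1 with hN
  have hNle : N ≤ 13 * K * n := by
    have : 1 ≤ K * n := Nat.mul_pos hK0 hn
    rw [hN]; nlinarith
  have h1 : p ^ (N ^ k) ≤ 2 ^ (p * N ^ k) := by
    rw [pow_mul]
    exact Nat.pow_le_pow_left (Nat.lt_two_pow_self).le _
  have h2 : N ^ k ≤ 2 ^ (N ^ k) := (Nat.lt_two_pow_self).le
  have hp1 : p + 1 ≤ (p + 1) ^ k := Nat.le_self_pow (by omega) _
  calc p ^ (N ^ k) * N ^ k ≤ 2 ^ (p * N ^ k) * 2 ^ (N ^ k) := Nat.mul_le_mul h1 h2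
    _ = 2 ^ ((p + 1) * N ^ k) := by rw [← pow_add]; ring_nf
    _ ≤ 2 ^ ((p + 1) ^ k * (13 * K * n) ^ k) := by
        apply Nat.pow_le_pow_right (by norm_num)
        exact Nat.mul_le_mul hp1 (Nat.pow_le_pow_left hNle k)
    _ = 2 ^ (((p + 1) * (13 * K) * n) ^ k) := by rw [← mul_pow]; ring_nf
    _ ≤ _ := by
        apply Nat.le_mul_of_pos_left
        positivity

end fin

section int

variable {k : ℕ}

theorem sepBy_int (S : Set (Wr ℤ (Fin k → ℤ))) (hS : S.Finite) :
    ∃ K : ℕ, 0 < K ∧ ∀ n, SepBy S n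
      ((12 * (K * n) + 1) ^ ((12 * (K * n) + 1) ^ k) * (12 * (K * n) + 1) ^ k) := by
  obtain ⟨K, hK0, hK⟩ := ball_bound
    (fun m (x : Wr ℤ (Fin k → ℤ)) => sz m x ∧ l1 x.f ≤ m)
    (fun m m' x h hx => ⟨hx.1.mono h, hx.2.trans h⟩) ⟨sz_one 0, by simp [l1_zero]⟩
    (fun m m' x y h h' => ⟨h.1.mul h'.1, by
      rw [mul_f]
      refine (l1_add _ _).trans ?_
      exact Nat.add_le_add h.2 ((l1_sh _ _).trans h'.2)⟩)
    (fun x => by
      obtain ⟨m, hm⟩ := exists_sz x
      exact ⟨m + l1 x.f, hm.mono (Nat.le_add_right _ _), Nat.le_add_left _ _⟩) S hS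
  refine ⟨K, hK0, fun n => ?_⟩
  intro x hx y hy hxy
  set N := 12 * (K * n) + 1 with hN
  have : NeZero N := ⟨by omega⟩
  have hx1 := hK n x hx
  have hy1 := hK n y hy
  obtain ⟨i, hi, hile⟩ := separation (R' := ZMod N) (Int.castAddHom (ZMod N)) (K * n) x y
    hx1.1 hy1.1 (fun a A' _ π z h => by
      have h1 : ((mapDomain π (y.f - sh a x.f) z : ℤ) : ZMod N) = 0 := h
      rw [ZMod.intCast_zmod_eq_zero_iff_dvd] at h1
      apply Int.eq_zero_of_abs_lt_dvd h1
      have h2 := (natAbs_le_l1 (mapDomain π (y.f - sh a x.f)) z).trans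
        ((l1_mapDomain _ _).trans (l1_sub _ _))
      have h3 := l1_sh a x.f
      rw [Int.abs_eq_natAbs]
      have : (mapDomain π (y.f - sh a x.f) z).natAbs < N := by
        have := hx1.2
        have := hy1.2
        omega
      exact_mod_cast this) hxy
  refine ⟨i, hi, hile.trans ?_⟩
  rw [Nat.card_zmod]

/-- `Conj(n) ⪯ n^(n^k)` for `ℤ ≀ ℤ^k`. -/
theorem sepBy_int' (hk : 1 ≤ k) (S : Set (Wr ℤ (Fin k → ℤ))) (hS : S.Finite) :
    ∃ C : ℕ, 0 < C ∧ ∀ n, SepBy S n (C * (C * n) ^ ((C * n) ^ k)) := by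
  obtain ⟨K, hK0, hK⟩ := sepBy_int S hS
  refine ⟨26 * K, by positivity, fun n => ?_⟩
  rcases Nat.eq_zero_or_pos n with rfl | hn
  · exact sepBy_zero S _
  refine (hK n).mono ?_
  set N := 12 * (K * n) + 1 with hN
  have hKn : 1 ≤ K * n := Nat.mul_pos hK0 hn
  have hNle : N ≤ 13 * K * n := by rw [hN]; nlinarith
  have hN2 : 2 ≤ N := by omega
  have h1 : k ≤ N ^ k := (Nat.lt_pow_self (by omega)).le
  calc N ^ (N ^ k) * N ^ k = N ^ (N ^ k + k) := by rw [pow_add]
    _ ≤ N ^ (2 * N ^ k) := Nat.pow_le_pow_right (by omega) (by omega)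
    _ ≤ (26 * K * n) ^ (2 * N ^ k) := Nat.pow_le_pow_left (by nlinarith) _
    _ ≤ (26 * K * n) ^ ((26 * K * n) ^ k) := by
        apply Nat.pow_le_pow_right (by nlinarith)
        have e : 26 * K * n = 2 * (13 * K * n) := by ring
        rw [e, mul_pow]
        exact Nat.mul_le_mul (Nat.le_self_pow (by omega) _) (Nat.pow_le_pow_left hNle k)
    _ ≤ _ := by
        apply Nat.le_mul_of_pos_left
        positivity

/-- `n^(n^k) ⪯ (log n)^(n^(2k))`. -/
theorem compare (hk : 1 ≤ k) (C : ℕ) (hC : 0 < C) (n : ℕ) (hn : 0 < n) :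
    ((C * (C * n) ^ ((C * n) ^ k) : ℕ) : ℝ) ≤
      ((8 * C : ℕ) : ℝ) * Real.log (((8 * C : ℕ) : ℝ) * n) ^ ((8 * C * n) ^ (2 * k)) := by
  have hlog : (2 : ℝ) ≤ Real.log (((8 * C : ℕ) : ℝ) * n) := by
    have h8 : (8 : ℝ) ≤ ((8 * C : ℕ) : ℝ) * n := by
      have : 8 ≤ 8 * C * n := by nlinarith
      exact_mod_cast this
    have h1 : Real.exp 2 ≤ 8 := by
      have h2 : Real.exp 2 = Real.exp 1 * Real.exp 1 := by rw [← Real.exp_add]; norm_num
      have h3 := Real.exp_one_lt_d9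
      have h4 := Real.exp_pos 1
      rw [h2]
      nlinarith
    calc (2 : ℝ) = Real.log (Real.exp 2) := (Real.log_exp 2).symm
      _ ≤ Real.log 8 := Real.log_le_log (Real.exp_pos 2) h1
      _ ≤ _ := Real.log_le_log (by norm_num) h8
  have hnat : C * (C * n) ^ ((C * n) ^ k) ≤ 8 * C * 2 ^ ((8 * C * n) ^ (2 * k)) := by
    set M := C * n with hM
    have hM1 : 1 ≤ M := Nat.mul_pos hC hn
    have h1 : M ^ (M ^ k) ≤ 2 ^ (M * M ^ k) := by
      rw [pow_mul]
      exact Nat.pow_le_pow_left (Nat.lt_two_pow_self).le _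
    have h2 : M * M ^ k ≤ (8 * C * n) ^ (2 * k) := by
      rw [← pow_succ']
      calc M ^ (k + 1) ≤ M ^ (2 * k) := Nat.pow_le_pow_right hM1 (by omega)
        _ ≤ (8 * C * n) ^ (2 * k) := Nat.pow_le_pow_left (by rw [hM]; nlinarith) _
    calc C * M ^ (M ^ k) ≤ (8 * C) * 2 ^ (M * M ^ k) := Nat.mul_le_mul (by omega) h1
      _ ≤ _ := Nat.mul_le_mul_left _ (Nat.pow_le_pow_right (by norm_num) h2)
  calc ((C * (C * n) ^ ((C * n) ^ k) : ℕ) : ℝ)
      ≤ ((8 * C * 2 ^ ((8 * C * n) ^ (2 * k)) : ℕ) : ℝ) := by exact_mod_cast hnat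
    _ = ((8 * C : ℕ) : ℝ) * 2 ^ ((8 * C * n) ^ (2 * k)) := by push_cast; ring
    _ ≤ _ := by
        apply mul_le_mul_of_nonneg_left _ (by positivity)
        exact pow_le_pow_left₀ (by norm_num) hlog _

end int

end Q102.CD
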