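import Pool.Agent.Q102.Wr.Basic

/-!
Separation of non-conjugate elements of `R ≀ ℤ^k` in the finite quotients `R' ≀ (ℤ^k / L)`.
-/

namespace Q102.CD

open Finsupp

section aug

variable {R A : Type*} [AddCommGroup R] [AddCommGroup A]

/-- `(1 - X^b) R[A]`. -/
noncomputable def aug (b : A) : AddSubgroup (A →₀ R) :=
  (AddMonoidHom.id (A →₀ R) - sh b).range

theorem mem_aug {b : A} {f : A →₀ R} : f ∈ aug b ↔ ∃ h, f = h - sh b h := by
  unfold aug
  rw [AddMonoidHom.mem_range]
  constructor
  · rintro ⟨h, rfl⟩; exact ⟨h, rfl⟩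
  · rintro ⟨h, rfl⟩; exact ⟨h, rfl⟩

theorem single_sub_mem_aug (b u : A) (c : R) (t : ℤ) :
    (single (u + t • b) c - single u c : A →₀ R) ∈ aug b := by
  have step : ∀ v : A, (single (v + b) c - single v c : A →₀ R) ∈ aug b := by
    intro v
    rw [mem_aug]
    refine ⟨-single v c, ?_⟩
    rw [map_neg, sh_single]; abel
  induction t using Int.induction_on with
  | zero => simp [(aug b).zero_mem]
  | succ n ih =>
    have h := (aug b).add_mem (step (u + (n : ℤ) • b)) ih
    have e : u + ((n : ℤ) + 1) • b = u + (n : ℤ) • b + b := by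
      rw [add_smul, one_smul]; abel
    rw [e]
    simpa using h
  | pred n ih =>
    have h := (aug b).sub_mem ih (step (u + (-(n : ℤ) - 1) • b))
    have e : u + (-(n : ℤ) - 1) • b + b = u + (-(n : ℤ)) • b := by
      rw [sub_smul, one_smul]; abel
    rw [e] at h
    simpa using h

end aug

section vec

variable {k : ℕ}

/-- All coordinates of `u` have absolute value at most `m`. -/
def nb (m : ℕ) (u : Fin k → ℤ) : Prop := ∀ i, |u i| ≤ (m : ℤ)

theorem nb.mono {m m' : ℕ} {u : Fin k → ℤ} (h : nb m u) (hm : m ≤ m') : nb m' u :=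
  fun i => (h i).trans (by exact_mod_cast hm)

theorem nb.add {m m' : ℕ} {u v : Fin k → ℤ} (h : nb m u) (h' : nb m' v) :
    nb (m + m') (u + v) := fun i => by
  have := abs_add_le (u i) (v i)
  have h1 := h i
  have h2 := h' i
  push_cast
  simp only [Pi.add_apply]
  linarith

theorem nb.neg {m : ℕ} {u : Fin k → ℤ} (h : nb m u) : nb m (-u) := fun i => by
  simpa using h i

theorem nb.sub {m m' : ℕ} {u v : Fin k → ℤ} (h : nb m u) (h' : nb m' v) :
    nb (m + m') (u - v) := by
  rw [sub_eq_add_neg]; exact h.add h'.neg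

theorem nb_zero (m : ℕ) : nb m (0 : Fin k → ℤ) := fun i => by simp

/-- The lattice `L`. -/
theorem exists_lattice (m : ℕ) (b : Fin k → ℤ) (hb : nb m b) :
    ∃ L : AddSubgroup (Fin k → ℤ), b ∈ L ∧ Finite ((Fin k → ℤ) ⧸ L) ∧
      Nat.card ((Fin k → ℤ) ⧸ L) ≤ (12 * m + 1) ^ k ∧
      ∀ u ∈ L, nb (6 * m) u → ∃ t : ℤ, u = t • b := by
  classical
  set N : ℕ := 12 * m + 1 with hN
  have hN0 : (0 : ℤ) < (N : ℤ) := by positivity
  -- a surjection from the box gives finiteness and the bound
  have key : ∀ L : AddSubgroup (Fin k → ℤ),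
      (∀ u : Fin k → ℤ, ∃ w : Fin k → Fin N, u - (fun i => ((w i : ℕ) : ℤ)) ∈ L) →
      Finite ((Fin k → ℤ) ⧸ L) ∧ Nat.card ((Fin k → ℤ) ⧸ L) ≤ N ^ k := by
    intro L hL
    have hs : Function.Surjective
        (fun w : Fin k → Fin N => (QuotientAddGroup.mk (fun i => ((w i : ℕ) : ℤ)) :
          (Fin k → ℤ) ⧸ L)) := by
      intro z
      obtain ⟨u, rfl⟩ := QuotientAddGroup.mk_surjective z
      obtain ⟨w, hw⟩ := hL u
      refine ⟨w, ?_⟩
      refine (QuotientAddGroup.eq).2 ?_
      have e : -(fun i => ((w i : ℕ) : ℤ)) + u = u - (fun i => ((w i : ℕ) : ℤ)) := by abel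
      rw [e]; exact hw
    refine ⟨Finite.of_surjective _ hs, ?_⟩
    have := Nat.card_le_card_of_surjective _ hs
    rwa [Nat.card_fun, Nat.card_fin, Nat.card_fin] at this
  by_cases hb0 : b = 0
  · -- `L = (N ℤ)^k`
    let L : AddSubgroup (Fin k → ℤ) :=
      { carrier := {u | ∀ i, (N : ℤ) ∣ u i}
        zero_mem' := fun i => by simp
        add_mem' := fun {u v} hu hv i => dvd_add (hu i) (hv i)
        neg_mem' := fun {u} hu i => by simpa using hu i }
    have hmem : ∀ u, u ∈ L ↔ ∀ i, (N : ℤ) ∣ u i := fun u => Iff.rfl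
    obtain ⟨h1, h2⟩ := key L (by
      intro u
      refine ⟨fun i => ⟨(u i % N).toNat, ?_⟩, ?_⟩
      · have h1 := Int.emod_nonneg (u i) hN0.ne'
        have h2 := Int.emod_lt_of_pos (u i) hN0
        omega
      · rw [hmem]
        intro i
        have h1 := Int.emod_nonneg (u i) hN0.ne'
        simp only [Pi.sub_apply]
        rw [Int.toNat_of_nonneg h1]
        exact Int.dvd_self_sub_emod)
    refine ⟨L, ?_, h1, h2, ?_⟩
    · rw [hmem, hb0]; intro i; simp
    · intro u hu hn
      refine ⟨0, ?_⟩
      rw [zero_smul]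
      funext i
      have h3 := (hmem u).1 hu i
      have h4 := hn i
      have : |u i| < (N : ℤ) := by
        rw [hN]; push_cast at h4 ⊢
        have := abs_nonneg (u i)
        nlinarith
      exact Int.eq_zero_of_abs_lt_dvd h3 this
  · -- a coordinate of maximal absolute value
    have hne : (Finset.univ : Finset (Fin k)).Nonempty := by
      by_contra h
      rw [Finset.not_nonempty_iff_eq_empty] at h
      apply hb0
      funext i
      exact absurd (Finset.mem_univ i) (by rw [h]; simp)
    obtain ⟨i0, -, hi0⟩ := Finset.exists_max_image Finset.univ (fun i => |b i|) hne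
    have hbi0 : b i0 ≠ 0 := by
      intro h0
      apply hb0
      funext i
      have := hi0 i (Finset.mem_univ i)
      rw [h0, abs_zero] at this
      exact abs_nonpos_iff.1 this
    let L : AddSubgroup (Fin k → ℤ) :=
      { carrier := {u | ∃ t : ℤ, u i0 = t * b i0 ∧ ∀ j, j ≠ i0 → (N : ℤ) ∣ u j - t * b j}
        zero_mem' := ⟨0, by simp, fun j _ => by simp⟩
        add_mem' := by
          rintro u v ⟨t, h1, h2⟩ ⟨s, h3, h4⟩
          refine ⟨t + s, by simp only [Pi.add_apply]; rw [h1, h3]; ring, fun j hj => ?_⟩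
          have := dvd_add (h2 j hj) (h4 j hj)
          have e : (u + v) j - (t + s) * b j = (u j - t * b j) + (v j - s * b j) := by
            simp only [Pi.add_apply]; ring
          rw [e]; exact this
        neg_mem' := by
          rintro u ⟨t, h1, h2⟩
          refine ⟨-t, by simp only [Pi.neg_apply]; rw [h1]; ring, fun j hj => ?_⟩
          have := (dvd_neg (α := ℤ)).2 (h2 j hj)
          have e : (-u) j - (-t) * b j = -(u j - t * b j) := by
            simp only [Pi.neg_apply]; ring
          rw [e]; exact this }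
    have hmem : ∀ u, u ∈ L ↔ ∃ t : ℤ, u i0 = t * b i0 ∧
      ∀ j, j ≠ i0 → (N : ℤ) ∣ u j - t * b j := fun u => Iff.rfl
    obtain ⟨h1, h2⟩ := key L (by
      intro u
      set t : ℤ := u i0 / b i0 with ht
      have hr0 := Int.emod_nonneg (u i0) hbi0
      have hr1 := Int.emod_lt_abs (u i0) hbi0
      have hbN : |b i0| ≤ (m : ℤ) := hb i0
      refine ⟨fun j => if h : j = i0 then ⟨(u i0 % b i0).toNat, ?_⟩
        else ⟨((u j - t * b j) % N).toNat, ?_⟩, ?_⟩
      · have : u i0 % b i0 < (N : ℤ) := by rw [hN]; push_cast; linarith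
        omega
      · have h1 := Int.emod_nonneg (u j - t * b j) hN0.ne'
        have h2 := Int.emod_lt_of_pos (u j - t * b j) hN0
        omega
      · rw [hmem]
        refine ⟨t, ?_, ?_⟩
        · simp only [Pi.sub_apply, dif_pos]
          rw [Int.toNat_of_nonneg hr0]
          have := Int.emod_add_mul_ediv (u i0) (b i0)
          rw [ht]; linarith
        · intro j hj
          simp only [Pi.sub_apply, dif_neg hj]
          have h1 := Int.emod_nonneg (u j - t * b j) hN0.ne'
          rw [Int.toNat_of_nonneg h1]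
          have e : u j - (u j - t * b j) % N - t * b j =
            (u j - t * b j) - (u j - t * b j) % N := by ring
          rw [e]
          exact Int.dvd_self_sub_emod)
    refine ⟨L, ?_, h1, h2, ?_⟩
    · rw [hmem]; exact ⟨1, by simp, fun j _ => by simp⟩
    · intro u hu hn
      obtain ⟨t, h3, h4⟩ := (hmem u).1 hu
      refine ⟨t, ?_⟩
      funext j
      rw [Pi.smul_apply, smul_eq_mul]
      by_cases hj : j = i0
      · rw [hj, h3]
      · have h5 := h4 j hj
        have h6 : |t * b j| ≤ 6 * (m : ℤ) := by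
          have h7 := hn i0
          rw [h3, abs_mul] at h7
          rw [abs_mul]
          have h8 := mul_le_mul_of_nonneg_left (hi0 j (Finset.mem_univ j)) (abs_nonneg t)
          push_cast at h7
          linarith
        have h9 := hn j
        push_cast at h9
        have h10 : |u j - t * b j| < (N : ℤ) := by
          have := abs_sub (u j) (t * b j)
          rw [hN]; push_cast
          linarith
        have := Int.eq_zero_of_abs_lt_dvd h5 h10
        linarith

end vec

section sep

variable {k : ℕ} {R : Type} [AddCommGroup R]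

/-- `x = (f,b)` has `b` and the support of `f` in the cube of radius `m`. -/
def sz (m : ℕ) (x : Wr R (Fin k → ℤ)) : Prop := nb m x.b ∧ ∀ u ∈ x.f.support, nb m u

theorem sz.mono {m m' : ℕ} {x : Wr R (Fin k → ℤ)} (h : sz m x) (hm : m ≤ m') : sz m' x :=
  ⟨h.1.mono hm, fun u hu => (h.2 u hu).mono hm⟩

theorem sz_one (m : ℕ) : sz m (1 : Wr R (Fin k → ℤ)) :=
  ⟨nb_zero m, fun u hu => by simp at hu⟩

theorem sz.mul {m m' : ℕ} {x y : Wr R (Fin k → ℤ)} (h : sz m x) (h' : sz m' y) :
    sz (m + m') (x * y) := by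
  classical
  refine ⟨h.1.add h'.1, fun u hu => ?_⟩
  rw [mul_f] at hu
  have := Finsupp.support_add hu
  rw [Finset.mem_union] at this
  rcases this with h1 | h1
  · exact (h.2 u h1).mono (Nat.le_add_right _ _)
  · have h2 := h'.2 _ (sh_support _ _ h1)
    have := h2.add h.1
    rw [sub_add_cancel, add_comm] at this
    exact this

theorem exists_sz (x : Wr R (Fin k → ℤ)) : ∃ m, sz m x := by
  classical
  have h1 : ∀ u : Fin k → ℤ, nb (∑ i, (u i).natAbs) u := by
    intro u i
    rw [Int.abs_eq_natAbs]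
    exact_mod_cast Finset.single_le_sum (f := fun i => (u i).natAbs) (fun _ _ => Nat.zero_le _)
      (Finset.mem_univ i)
  refine ⟨(∑ i, (x.b i).natAbs) + ∑ u ∈ x.f.support, ∑ i, (u i).natAbs, ?_, ?_⟩
  · exact (h1 x.b).mono (Nat.le_add_right _ _)
  · intro u hu
    refine (h1 u).mono ?_
    have := Finset.single_le_sum (f := fun u : Fin k → ℤ => ∑ i, (u i).natAbs)
      (fun _ _ => Nat.zero_le _) hu
    exact this.trans (Nat.le_add_left _ _)

/-- The main separation theorem. -/
theorem separation {R' : Type} [AddCommGroup R'] [Finite R'] (ρ : R →+ R') (m : ℕ)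
    (x y : Wr R (Fin k → ℤ)) (hx : sz m x) (hy : sz m y)
    (hρ : ∀ (a : Fin k → ℤ) (A' : Type) [AddCommGroup A'] (π : (Fin k → ℤ) →+ A') (z : A'),
      ρ (mapDomain π (y.f - sh a x.f) z) = 0 → mapDomain π (y.f - sh a x.f) z = 0)
    (hxy : ¬ IsConj x y) :
    ∃ i ∈ sepIndices x y, i ≤ Nat.card R' ^ ((12 * m + 1) ^ k) * (12 * m + 1) ^ k := by
  classical
  -- it suffices to find a suitable quotient
  suffices H : ∃ L : AddSubgroup (Fin k → ℤ), Finite ((Fin k → ℤ) ⧸ L) ∧
      Nat.card ((Fin k → ℤ) ⧸ L) ≤ (12 * m + 1) ^ k ∧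
      ¬ IsConj (wmap ρ (QuotientAddGroup.mk' L) x) (wmap ρ (QuotientAddGroup.mk' L) y) by
    obtain ⟨L, hfin, hcard, hnc⟩ := H
    have : Finite (Wr R' ((Fin k → ℤ) ⧸ L)) := finite_wr
    obtain ⟨i, hi, hile⟩ := mem_sepIndices (wmap ρ (QuotientAddGroup.mk' L)) hnc
    refine ⟨i, hi, hile.trans ?_⟩
    rw [card_wr]
    exact Nat.mul_le_mul (Nat.pow_le_pow_right Nat.card_pos hcard) hcard
  by_cases hb : x.b = y.b
  · obtain ⟨L, hbL, hfin, hcard, hL⟩ := exists_lattice m x.b hx.1
    refine ⟨L, hfin, hcard, fun hconj => hxy ?_⟩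
    set π : (Fin k → ℤ) →+ (Fin k → ℤ) ⧸ L := QuotientAddGroup.mk' L with hπ
    have hπL : ∀ u, π u = 0 ↔ u ∈ L := fun u => QuotientAddGroup.eq_zero_iff u
    have hπb : (wmap ρ π x).b = 0 := by rw [wmap_b, hπL]; exact hbL
    obtain ⟨a', ha'⟩ := isConj_f hconj hπb
    -- a lift of `a'`
    have hlift : ∃ a : Fin k → ℤ, nb (m + m) a ∧
        (wmap ρ π y).f = sh (π a) (wmap ρ π x).f := by
      by_cases h0 : (wmap ρ π x).f = 0
      · refine ⟨0, nb_zero _, ?_⟩
        rw [ha', h0]; simp
      · obtain ⟨w, hw⟩ := Finsupp.support_nonempty_iff.2 h0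
        have hw' : w + a' ∈ (wmap ρ π y).f.support := by
          rw [Finsupp.mem_support_iff] at hw ⊢
          rw [ha', sh_apply]; exact hw
        have hpre : ∀ (g : (Fin k → ℤ) →₀ R) (w : (Fin k → ℤ) ⧸ L),
            w ∈ (mapDomain π (mapRange ρ ρ.map_zero g)).support → ∃ u ∈ g.support, π u = w := by
          intro g w hw
          have h1 := Finsupp.mapDomain_support hw
          rw [Finset.mem_image] at h1
          obtain ⟨u, hu, rfl⟩ := h1
          exact ⟨u, Finsupp.support_mapRange hu, rfl⟩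
        obtain ⟨u, hu, huw⟩ := hpre x.f w hw
        obtain ⟨v, hv, hvw⟩ := hpre y.f _ hw'
        refine ⟨v - u, (hy.2 v hv).sub (hx.2 u hu), ?_⟩
        rw [ha', map_sub, huw, hvw]
        congr 2
        abel
    obtain ⟨a, ha, haf⟩ := hlift
    set F : (Fin k → ℤ) →₀ R := y.f - sh a x.f with hF
    have hFsupp : ∀ u ∈ F.support, nb (3 * m) u := by
      intro u hu
      have h1 : u ∈ y.f.support ∪ (sh a x.f).support := Finsupp.support_sub hu
      rw [Finset.mem_union] at h1
      rcases h1 with h1 | h1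
      · exact (hy.2 u h1).mono (by omega)
      · have h2 := (hx.2 _ (sh_support _ _ h1)).add ha
        rw [sub_add_cancel] at h2
        exact h2.mono (by omega)
    have hFimg : mapDomain π F = 0 := by
      ext z
      rw [Finsupp.zero_apply]
      apply hρ a _ π z
      have h1 : mapDomain π (mapRange ρ ρ.map_zero F) = 0 := by
        have e : mapRange ρ ρ.map_zero F = mapRange ρ ρ.map_zero y.f -
            mapRange ρ ρ.map_zero (sh a x.f) := by
          rw [hF]
          exact Finsupp.mapRange_sub (fun x y => ρ.map_sub x y) _ _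
        have e2 := (Finsupp.mapDomain.addMonoidHom (M := R') π).map_sub
          (mapRange ρ ρ.map_zero y.f) (mapRange ρ ρ.map_zero (sh a x.f))
        rw [e]
        refine e2.trans ?_
        have e3 := image_sh ρ π a x.f
        simp only [wmap_f] at haf
        change mapDomain π (mapRange ρ ρ.map_zero y.f) -
          mapDomain π (mapRange ρ ρ.map_zero (sh a x.f)) = 0
        rw [e3, haf, sub_self]
      have h2 : mapRange ρ ρ.map_zero (mapDomain π F) =
          mapDomain π (mapRange ρ ρ.map_zero F) :=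
        (Finsupp.mapDomain_mapRange π F ρ ρ.map_zero (fun x y => ρ.map_add x y)).symm
      have h3 := DFunLike.congr_fun (h2.trans h1) z
      simpa using h3
    -- choose representatives
    let s : (Fin k → ℤ) ⧸ L → (Fin k → ℤ) := fun z =>
      if h : ∃ u, nb (3 * m) u ∧ π u = z then h.choose else 0
    have hs : ∀ u, nb (3 * m) u → nb (3 * m) (s (π u)) ∧ π (s (π u)) = π u := by
      intro u hu
      have h : ∃ v, nb (3 * m) v ∧ π v = π u := ⟨u, hu, rfl⟩
      simp only [s, dif_pos h]
      exact h.choose_spec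
    have hFaug : F ∈ aug x.b := by
      have e1 : F = F.sum (fun u c => single u c - single (s (π u)) c) := by
        rw [Finsupp.sum_sub, Finsupp.sum_single]
        have : F.sum (fun u c => single (s (π u)) c) = 0 := by
          have e2 : mapDomain s (mapDomain π F) = mapDomain (s ∘ π) F :=
            (Finsupp.mapDomain_comp).symm
          rw [hFimg, Finsupp.mapDomain_zero] at e2
          exact e2.symm
        rw [this, sub_zero]
      rw [e1]
      refine (aug x.b).sum_mem (fun u hu => ?_)
      have hu3 := hFsupp u hu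
      obtain ⟨h1, h2⟩ := hs u hu3
      have h3 : u - s (π u) ∈ L := by
        rw [← hπL, map_sub, h2, sub_self]
      have h4 := hu3.sub h1
      obtain ⟨t, ht⟩ := hL _ h3 (h4.mono (by omega))
      have h5 : u = s (π u) + t • x.b := by rw [← ht]; abel
      have h6 := single_sub_mem_aug x.b (s (π u)) (F u) t
      rw [← h5] at h6
      exact h6
    obtain ⟨h, hh⟩ := mem_aug.1 hFaug
    exact isConj_of a h hb (by rw [← hF]; exact hh)
  · -- different `ℤ^k`-components
    obtain ⟨L, -, hfin, hcard, hL⟩ := exists_lattice m (0 : Fin k → ℤ) (nb_zero m)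
    refine ⟨L, hfin, hcard, fun hconj => hb ?_⟩
    have h1 := isConj_b hconj
    simp only [wmap_b] at h1
    have h2 : x.b - y.b ∈ L := by
      rw [← QuotientAddGroup.eq_zero_iff]
      change QuotientAddGroup.mk' L (x.b - y.b) = 0
      rw [map_sub, h1, sub_self]
    obtain ⟨t, ht⟩ := hL _ h2 ((hx.1.sub hy.1).mono (by omega))
    rw [smul_zero] at ht
    exact sub_eq_zero.1 ht

end sep

end Q102.CD
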